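import Pool.Agent.H.MP_400b40_lc.A

set_option autoImplicit false

namespace Pool.Agent.Results.MP_400b40_lc.Yes

open Pool.Agent.H.MP_400b40_lc

theorem result : ∃ L : Set Fm, Normal L ∧ Loeb ∈ L ∧
    (∃ f : ℕ → Bool, Computable f ∧ ∀ φ : Fm, f φ.code = true ↔ φ ∈ L) ∧
    ¬∃ g : ℕ × ℕ →. Bool, Partrec g ∧
      ∀ φ ψ : Fm, ∃ b ∈ g (φ.code, ψ.code), (b = true ↔ HasInterpolant L φ ψ) := by
  refine ⟨L, normal, loeb, L_dec, fun ⟨g, h1, h2⟩ => ComputablePred.halting_problem 0 ?_⟩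
  choose b h2 h3 using h2
  have e := Primrec.nat_mul.comp (.const 2) (Primrec.encode (α := ℕ))
  have := (h1.comp ((dbl_prim e 0).pair (Primrec₂.natPair.comp (.const 2) (Primrec₂.natPair.comp
    (dbl_prim (Primrec.succ.comp e) 1) (.const Fm.bot.code)))).to_comp).of_eq_tot fun n => h2 _ (neg _)
  refine (ComputablePred.computable_iff.2 ⟨_, this.comp Computable.encode, rfl⟩).of_eq fun c => ?_
  exact (h3 ..).trans ((iep _).trans ((T_iff _).trans (by rw [Encodable.encode_nat, Denumerable.ofNat_encode])))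

end Pool.Agent.Results.MP_400b40_lc.Yes
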